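import Pool.Agent.KS6_46.MA.Struct

/-!
# Measure algebras and the σ-finite chain condition

A complete Boolean algebra admits a measure **if and only if** it satisfies the σ-finite chain
condition of Horn and Tarski and all its countably generated complete subalgebras admit measures.
More precisely, let `B` be any complete Boolean algebra all of whose countably generated complete
subalgebras admit measures. Then there is `b₀` in `B` such that for every `c` the principal ideal
below `c` admits a measure iff it satisfies the σ-finite chain condition iff `c ≤ b₀`.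

An algebra with a continuous outer measure (more generally, with a strictly positive exhaustive
function) satisfies the σ-finite chain condition, so this answers Q1 and shows that the
continuous outer measure is not needed.

Proof. Let the nonzero elements of `B` be the union of the upwards closed sets `C n` without
infinite sets of pairwise disjoint elements. Call `a ≠ ⊥` good for `C n` if each increasing sequence
with supremum `a` meets `C n`. The algebra `B` is weakly distributive, since this concerns
countably many elements at a time; therefore each `a ≠ ⊥` is good for some `C n`. A sequence `a k`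
of good elements for `C n` does not converge to `⊥`: otherwise with `b m = ⨆ i ≥ m, a i` one finds
`k₀ < k₁ < ⋯` such that the pairwise disjoint elements `a (k i) \ b (k (i + 1))` belong to `C n`.
So each measure on a countably generated complete subalgebra is bounded below on the good elements
for `C n`, which gives a positive intersection number; Kelley's theorem yields a strictly positive
finitely additive measure, and its countably additive part is strictly positive by weak
distributivity.
-/

set_option autoImplicit false

namespace Pool.Agent.Results.MP_2d6919_lc.SigmaFiniteChain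

open Pool.Agent.H648BA Pool.Agent.KS6_46.MA Filter Topology Function

universe u

/-- A complete subalgebra is countably generated if it is the smallest complete subalgebra of `B`
containing some countable subset of `B`. -/
def IsCountablyGenerated {B : Type u} [CompleteBooleanAlgebra B] (A : Set B) : Prop :=
  ∃ S : Set B, S.Countable ∧ A = generated S

/-- Every countably generated complete subalgebra of `B` admits a measure. -/
def LocallyMeasurable (B : Type u) [CompleteBooleanAlgebra B] : Prop :=
  ∀ A : Set B, IsCountablyGenerated A → ∃ μ : B → ℝ, IsMeasureOn A μ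

/-- The σ-finite chain condition of Horn and Tarski: the set of the nonzero elements is the union of
countably many sets none of which contains an infinite set of pairwise disjoint elements. -/
def SigmaFiniteCC (B : Type u) [CompleteBooleanAlgebra B] : Prop :=
  ∃ C : ℕ → Set B, (⋃ n, C n) = {b : B | b ≠ ⊥} ∧
    ∀ n, ∀ D ⊆ C n, D.PairwiseDisjoint id → D.Finite

theorem sigmaFiniteCC_iff {B : Type u} [CompleteBooleanAlgebra B] :
    SigmaFiniteCC B ↔ SigmaFiniteBelow (⊤ : B) := by
  unfold SigmaFiniteCC SigmaFiniteBelow
  simp only [le_top, and_true]

theorem locally_iff {B : Type u} [CompleteBooleanAlgebra B] :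
    LocallyMeasurable B ↔ Locally B :=
  ⟨fun h S hS => h _ ⟨S, hS, rfl⟩, fun h _ ⟨S, hS, hA⟩ => hA ▸ h S hS⟩

/-- Let `B` be a complete Boolean algebra. (1) `B` admits a measure iff it satisfies the σ-finite
chain condition and all its countably generated complete subalgebras admit measures. (2) If all
countably generated complete subalgebras of `B` admit measures, there is `b₀` such that for every
`c` the principal ideal below `c` admits a measure iff `c ≤ b₀`, and satisfies the σ-finite chain
condition iff `c ≤ b₀`. (3) If there is a continuous outer measure on `B`, or any strictly positive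
function which tends to zero on each sequence of pairwise disjoint elements, then `B`
satisfies the σ-finite chain condition. (4) If `B` satisfies the σ-finite chain condition, there is
a countable set `S` such that every complete subalgebra which contains `S` admits a measure iff
`B` does. -/
theorem result (B : Type u) [CompleteBooleanAlgebra B] :
    ((∃ μ : B → ℝ, IsMeasureOn Set.univ μ) ↔ SigmaFiniteCC B ∧ LocallyMeasurable B) ∧
    (LocallyMeasurable B → ∃ b₀ : B, ∀ c : B,
      ((∃ μ : B → ℝ, IsMeasureOn (Set.Iic c) μ) ↔ c ≤ b₀) ∧ (SigmaFiniteBelow c ↔ c ≤ b₀)) ∧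
    (((∃ m : B → ℝ, IsContinuousOuterMeasure m) → SigmaFiniteCC B) ∧
      ((∃ g : B → ℝ, (∀ b, b ≠ ⊥ → 0 < g b) ∧ ∀ f : ℕ → B, Pairwise (Disjoint on f) →
        Tendsto (fun n => g (f n)) atTop (𝓝 0)) → SigmaFiniteCC B)) ∧
    (SigmaFiniteCC B → ∃ S : Set B, S.Countable ∧ ∀ A : Set B, IsCompleteSubalgebra A → S ⊆ A →
      ((∃ μ : B → ℝ, IsMeasureOn A μ) ↔ ∃ μ : B → ℝ, IsMeasureOn Set.univ μ)) := by
  have h1 : (∃ μ : B → ℝ, IsMeasureOn Set.univ μ) ↔ SigmaFiniteCC B ∧ LocallyMeasurable B := by
    constructor
    · rintro ⟨μ, hμ⟩
      refine ⟨sigmaFiniteCC_iff.2 (sigmaFinite_of_measure ⟨μ, restr hμ (Set.subset_univ _)⟩),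
        fun A _ => ⟨μ, restr hμ (Set.subset_univ _)⟩⟩
    · rintro ⟨hc, hB⟩
      have := measure_below (sigmaFiniteCC_iff.1 hc) (locally_iff.1 hB)
      rwa [Set.Iic_top] at this
  refine ⟨h1, fun hB => structure_thm (locally_iff.1 hB), ⟨?_, ?_⟩, fun hc => ?_⟩
  · rintro ⟨m, hm⟩
    exact sigmaFiniteCC_iff.2 (sigmaFinite_of_exhaustive
      ((exhaustive_outer hm).restr (Set.subset_univ _)) fun b hb _ => hm.pos b hb)
  · rintro ⟨g, hg, hf⟩
    exact sigmaFiniteCC_iff.2 (sigmaFinite_of_exhaustive (g := g)
      (fun f _ hd => hf f hd) fun b hb _ => hg b hb)
  · by_cases hB : LocallyMeasurable B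
    · refine ⟨∅, Set.countable_empty, fun A _ _ => ⟨fun _ => h1.2 ⟨hc, hB⟩, ?_⟩⟩
      rintro ⟨μ, hμ⟩
      exact ⟨μ, restr hμ (Set.subset_univ _)⟩
    · have h2 : ∃ S : Set B, S.Countable ∧ ¬ ∃ μ : B → ℝ, IsMeasureOn (generated S) μ := by
        by_contra hcon
        push Not at hcon
        apply hB
        rintro A ⟨S, hS, rfl⟩
        exact hcon S hS
      obtain ⟨S, hS, hno⟩ := h2
      refine ⟨S, hS, fun A hA hSA => ⟨?_, ?_⟩⟩
      · rintro ⟨μ, hμ⟩
        exact absurd ⟨μ, restr hμ fun x hx => hx A ⟨hA, hSA⟩⟩ hno
      · rintro ⟨μ, hμ⟩
        exact ⟨μ, restr hμ (Set.subset_univ _)⟩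

end Pool.Agent.Results.MP_2d6919_lc.SigmaFiniteChain
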